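import Pool.Agent.helper7.BQ.Spec
import Pool.Agent.helper43.CH.LPS

set_option autoImplicit false

namespace Pool.Agent.BQ

open Finset ArithmeticFunction MeasureTheory
open Pool.Agent.CH (ph)

theorem LPS2_sum (Y B : ℕ) (hY : 1 ≤ Y) :
    ∑ y ∈ Ico Y (2 * Y), (Real.log ((y : ℝ) + B) - Real.log y) ≤ B * Real.log 2 := by
  induction B with
  | zero => simp
  | succ B ih =>
    have h1 : ∀ y ∈ Ico Y (2 * Y), Real.log ((y : ℝ) + ((B + 1 : ℕ) : ℝ)) - Real.log y =
        (Real.log ((y : ℝ) + B) - Real.log y) +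
          (Real.log (((y + 1 : ℕ) : ℝ) + B) - Real.log ((y : ℝ) + B)) := by
      intro y _
      have e : ((y + 1 : ℕ) : ℝ) + B = (y : ℝ) + ((B + 1 : ℕ) : ℝ) := by push_cast; ring
      rw [e]
      ring
    rw [sum_congr rfl h1, sum_add_distrib,
      Finset.sum_Ico_sub (fun n : ℕ => Real.log ((n : ℝ) + B)) (by omega)]
    have hY0 : (1 : ℝ) ≤ Y := by exact_mod_cast hY
    have hB0 : (0 : ℝ) ≤ B := Nat.cast_nonneg B
    have h2 : Real.log (((2 * Y : ℕ) : ℝ) + B) ≤ Real.log 2 + Real.log ((Y : ℝ) + B) := by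
      rw [← Real.log_mul (by norm_num) (by linarith)]
      apply Real.log_le_log
      · push_cast; linarith
      · push_cast; linarith
    push_cast at h2 ⊢
    linarith

theorem LPS2_ind (y B : ℕ) (r : ℝ) :
    Integrable ((Set.Ioc (Real.log y) (Real.log ((y : ℝ) + B))).indicator
      (fun _ : ℝ => r)) :=
  (integrable_indicator_iff measurableSet_Ioc).2 (integrableOn_const (by simp))

theorem LPS2_abs (Y B : ℕ) (c : ℕ → ℝ) (hY : 1 ≤ Y) (hc : ∀ n, |c n| ≤ 1)
    (hint : Integrable (GG Y B c)) :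
    ∫ w : ℝ, |GG Y B c w| ≤ B * Real.log 2 := by
  have h1 : ∫ w : ℝ, |GG Y B c w| ≤ ∫ w : ℝ, ∑ y ∈ Ico Y (2 * Y),
      (Set.Ioc (Real.log y) (Real.log ((y : ℝ) + B))).indicator (fun _ => (1 : ℝ)) w := by
    apply integral_mono hint.abs (integrable_finsetSum _ fun n _ => LPS2_ind n B 1)
    intro w
    simp only [GG]
    refine (abs_sum_le_sum_abs _ _).trans ?_
    apply sum_le_sum
    intro n _
    unfold Set.indicator
    split_ifs
    · exact hc n
    · simp
  refine h1.trans ?_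
  rw [integral_finsetSum _ fun n _ => LPS2_ind n B 1]
  have h2 : ∀ y ∈ Ico Y (2 * Y), ∫ w : ℝ,
      (Set.Ioc (Real.log y) (Real.log ((y : ℝ) + B))).indicator (fun _ => (1 : ℝ)) w =
      Real.log ((y : ℝ) + B) - Real.log y := by
    intro y hy
    have hn1 : 1 ≤ y := hY.trans (mem_Ico.1 hy).1
    have hn0 : (0 : ℝ) < y := by exact_mod_cast hn1
    have hB0 : (0 : ℝ) ≤ B := Nat.cast_nonneg B
    have hle : Real.log (y : ℝ) ≤ Real.log ((y : ℝ) + B) := Real.log_le_log hn0 (by linarith)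
    rw [integral_indicator measurableSet_Ioc, setIntegral_const, smul_eq_mul, mul_one,
      Measure.real, Real.volume_Ioc, ENNReal.toReal_ofReal (by linarith)]
  rw [sum_congr rfl h2]
  exact LPS2_sum Y B hY

/-- Row LPS2. -/
theorem LPS2 (h1 : GGB_stmt) : LPS2_stmt := by
  intro Y B X c δ E f hY hBY hc hδ hδ1 hf
  have hE : 0 ≤ E := (norm_nonneg _).trans (hf 0 (Nat.zero_le X))
  have hG : Integrable (GG Y B c) := (h1.2.1 Y B c hY hBY hc).2.2
  have hint : ∀ v : ℝ, Integrable (fun w : ℝ => GG Y B c w * ph δ (v - w)) := by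
    intro v
    have h := hG.bdd_mul (f := fun w : ℝ => ph δ (v - w)) (c := ph δ 0)
      (((CH.LPS_cont δ).comp (continuous_const.sub continuous_id)).aestronglyMeasurable)
      (Filter.Eventually.of_forall fun w => by
        rw [Real.norm_of_nonneg (CH.LPS_pos hδ _)]
        exact CH.LPS_le0 hδ _)
    have e : (fun w : ℝ => GG Y B c w * ph δ (v - w)) = fun w : ℝ => ph δ (v - w) * GG Y B c w := by
      funext w; ring
    rw [e]; exact h
  have hswap : ∑ j ∈ Ioc 0 X, f j * ((Gs Y B c δ (Real.log j) : ℝ) : ℂ) =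
      ∫ w : ℝ, ((GG Y B c w : ℝ) : ℂ) *
        ∑ j ∈ Ioc 0 X, f j * ((ph δ (Real.log (j : ℝ) - w) : ℝ) : ℂ) := by
    have h1 : ∀ j ∈ Ioc 0 X, f j * ((Gs Y B c δ (Real.log j) : ℝ) : ℂ) =
        ∫ w : ℝ, f j * ((GG Y B c w * ph δ (Real.log (j : ℝ) - w) : ℝ) : ℂ) := by
      intro j _
      rw [integral_const_mul, integral_complex_ofReal]
      rfl
    have hI : ∀ j ∈ Ioc 0 X, Integrable
        (fun w : ℝ => f j * ((GG Y B c w * ph δ (Real.log (j : ℝ) - w) : ℝ) : ℂ)) := fun j _ =>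
      (hint (Real.log (j : ℝ))).ofReal.const_mul (f j)
    rw [sum_congr rfl h1, ← integral_finsetSum _ hI]
    congr 1
    funext w
    rw [mul_sum]
    apply sum_congr rfl
    intro j _
    push_cast
    ring
  rw [hswap]
  have hb : ∀ w : ℝ, ‖((GG Y B c w : ℝ) : ℂ) *
      ∑ j ∈ Ioc 0 X, f j * ((ph δ (Real.log (j : ℝ) - w) : ℝ) : ℂ)‖ ≤
      |GG Y B c w| * (3 * ph δ 0 * E) := by
    intro w
    rw [norm_mul, Complex.norm_real, Real.norm_eq_abs]
    exact mul_le_mul_of_nonneg_left (CH.LPS_inner hδ X f hf) (abs_nonneg _)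
  refine (norm_integral_le_of_norm_le (hG.abs.mul_const _)
    (Filter.Eventually.of_forall hb)).trans ?_
  rw [integral_mul_const]
  have hp0 : ph δ 0 ≤ 1 / (5 / 2 * δ) := by
    unfold ph
    have e : Real.exp (-((0 : ℝ) ^ 2) / (2 * δ ^ 2)) = 1 := by simp
    rw [e]
    apply one_div_le_one_div_of_le (by positivity)
    have h52 : (5 / 2 : ℝ) ≤ √(2 * Real.pi) := by
      apply Real.le_sqrt_of_sq_le
      have := Real.pi_gt_d2
      norm_num
      linarith
    nlinarith
  have hlog2 : Real.log 2 < 0.7 := by linarith [Real.log_two_lt_d9]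
  have hlog0 : 0 < Real.log 2 := Real.log_pos (by norm_num)
  have hB0 : (0 : ℝ) ≤ B := Nat.cast_nonneg B
  have hp := CH.LPS_pos hδ 0
  calc (∫ w : ℝ, |GG Y B c w|) * (3 * ph δ 0 * E)
      ≤ (B * Real.log 2) * (3 * ph δ 0 * E) := by
        apply mul_le_mul_of_nonneg_right (LPS2_abs Y B c hY hc hG)
        positivity
    _ ≤ (B * 0.7) * (3 * (1 / (5 / 2 * δ)) * E) := by
        apply mul_le_mul
        · exact mul_le_mul_of_nonneg_left (by linarith) hB0
        · apply mul_le_mul_of_nonneg_right _ hE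
          linarith
        · positivity
        · positivity
    _ = 0.84 * (E * B / δ) := by
        field_simp
        ring
    _ ≤ 4 * (E * B / δ) := by
        apply mul_le_mul_of_nonneg_right (by norm_num) (by positivity)
    _ = 4 * E * B / δ := by ring

end Pool.Agent.BQ
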